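import Pool.Agent.LPK.Stmts

/-!
# Squad LPK, row JDD (helper21): second directional derivative of the Gaussian transform

The integrability of the Gaussian follows the row GIN of helper7 (squad LPC).
-/

set_option autoImplicit false

open MeasureTheory Filter Topology
open scoped RealInnerProductSpace

namespace Pool.Agent.LPK.H21

open Pool.Agent.LPK

theorem int_gauss (n : ℕ) {b : ℝ} (hb : 0 < b) :
    Integrable (fun w : V n => Real.exp (-b * ‖w‖ ^ 2)) := by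
  have h1 := GaussianFourier.integrable_cexp_neg_mul_sq_norm_add (V := V n) (b := (b : ℂ))
    (by simpa using hb) 0 0
  refine h1.norm.congr (ae_of_all _ fun w => ?_)
  beta_reduce
  rw [Complex.norm_exp]
  congr 1
  have h2 : (-(b : ℂ) * ((‖w‖ : ℝ) : ℂ) ^ 2 + 0 * ((⟪(0 : V n), w⟫ : ℝ) : ℂ)) =
      ((-b * ‖w‖ ^ 2 : ℝ) : ℂ) := by
    push_cast
    ring
  rw [h2, Complex.ofReal_re]

/-- polynomial growth -/
def PG {n : ℕ} (g : V n → ℝ) : Prop := ∃ (C : ℝ) (m : ℕ), 0 ≤ C ∧ ∀ x, |g x| ≤ C * (1 + ‖x‖ ^ 2) ^ m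

theorem G_cont (n : ℕ) : Continuous (G : V n → ℝ) := by
  unfold G
  fun_prop

theorem G_pos {n : ℕ} (x : V n) : 0 < G x := Real.exp_pos _

theorem int_pg {n : ℕ} {g : V n → ℝ} (hc : Continuous g) (hg : PG g) :
    Integrable (fun x => g x * G x) := by
  obtain ⟨C, m, hC, hb⟩ := hg
  have h1 := (int_gauss n (b := 1 / 4) (by norm_num)).const_mul
    (C * (m.factorial * 4 ^ m * Real.exp (1 / 4)) : ℝ)
  refine h1.mono' (hc.mul (G_cont n)).aestronglyMeasurable (ae_of_all _ fun x => ?_)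
  have hy : (0 : ℝ) ≤ (1 + ‖x‖ ^ 2) / 4 := by positivity
  have h3 := Real.pow_div_factorial_le_exp ((1 + ‖x‖ ^ 2) / 4) hy m
  rw [div_le_iff₀ (by positivity)] at h3
  have h4 : (1 + ‖x‖ ^ 2) ^ m = 4 ^ m * ((1 + ‖x‖ ^ 2) / 4) ^ m := by
    rw [← mul_pow]
    congr 1
    ring
  have h5 : (1 + ‖x‖ ^ 2) ^ m ≤ 4 ^ m * (Real.exp ((1 + ‖x‖ ^ 2) / 4) * m.factorial) := by
    rw [h4]
    exact mul_le_mul_of_nonneg_left h3 (by positivity)
  have h6 : Real.exp ((1 + ‖x‖ ^ 2) / 4) * G x = Real.exp (1 / 4) * Real.exp (-(1 / 4) * ‖x‖ ^ 2) := by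
    unfold G
    rw [← Real.exp_add, ← Real.exp_add]
    congr 1
    ring
  rw [Real.norm_eq_abs, abs_mul, abs_of_pos (G_pos x)]
  calc |g x| * G x ≤ C * (1 + ‖x‖ ^ 2) ^ m * G x :=
        mul_le_mul_of_nonneg_right (hb x) (G_pos x).le
    _ ≤ C * (4 ^ m * (Real.exp ((1 + ‖x‖ ^ 2) / 4) * m.factorial)) * G x :=
        mul_le_mul_of_nonneg_right (mul_le_mul_of_nonneg_left h5 hC) (G_pos x).le
    _ = C * (m.factorial * 4 ^ m) * (Real.exp ((1 + ‖x‖ ^ 2) / 4) * G x) := by ring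
    _ = _ := by
        rw [h6]
        ring

theorem pg_mul {n : ℕ} {g : V n → ℝ} (hg : PG g) (v : V n) : PG (fun x => ⟪x, v⟫ * g x) := by
  obtain ⟨C, m, hC, hb⟩ := hg
  refine ⟨‖v‖ * C, m + 1, by positivity, fun x => ?_⟩
  rw [abs_mul]
  have h1 : |⟪x, v⟫| ≤ ‖x‖ * ‖v‖ := abs_real_inner_le_norm x v
  have h2 : ‖x‖ ≤ 1 + ‖x‖ ^ 2 := by nlinarith [sq_nonneg (‖x‖ - 1), norm_nonneg x]
  calc |⟪x, v⟫| * |g x| ≤ (‖x‖ * ‖v‖) * (C * (1 + ‖x‖ ^ 2) ^ m) :=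
        mul_le_mul h1 (hb x) (abs_nonneg _) (by positivity)
    _ ≤ ((1 + ‖x‖ ^ 2) * ‖v‖) * (C * (1 + ‖x‖ ^ 2) ^ m) := by
        refine mul_le_mul_of_nonneg_right (mul_le_mul_of_nonneg_right h2 (norm_nonneg v)) ?_
        positivity
    _ = _ := by ring

/-- differentiation under the integral -/
theorem der {n : ℕ} {g : V n → ℝ} (hc : Continuous g) (hg : PG g) (v w : V n) (φ φ' : ℝ → ℝ)
    (h1 : ∀ y, HasDerivAt φ (φ' y) y) (hφ' : Continuous φ') (hb : ∀ y, |φ y| ≤ 1)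
    (hb' : ∀ y, |φ' y| ≤ 1) (t : ℝ) :
    HasDerivAt (fun t : ℝ => ∫ x, g x * G x * φ ⟪x, w + t • v⟫)
      (∫ x, ⟪x, v⟫ * g x * G x * φ' ⟪x, w + t • v⟫) t := by
  have hφ : Continuous φ := continuous_iff_continuousAt.2 fun y => (h1 y).continuousAt
  have hG := G_cont n
  have hin : ∀ (s : ℝ), Continuous (fun x : V n => (⟪x, w + s • v⟫ : ℝ)) := by
    intro s
    fun_prop
  have hI := int_pg hc hg
  have hI' : Integrable (fun x => |⟪x, v⟫ * g x| * G x) := by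
    refine (int_pg (by fun_prop) (pg_mul hg v)).norm.congr (ae_of_all _ fun x => ?_)
    show ‖(⟪x, v⟫ * g x) * G x‖ = |⟪x, v⟫ * g x| * G x
    rw [Real.norm_eq_abs, abs_mul, abs_of_pos (G_pos x)]
  refine (hasDerivAt_integral_of_dominated_loc_of_deriv_le (μ := volume) (s := Set.univ)
    (bound := fun x => |⟪x, v⟫ * g x| * G x)
    (F' := fun (s : ℝ) x => ⟪x, v⟫ * g x * G x * φ' ⟪x, w + s • v⟫) univ_mem ?_ ?_ ?_ ?_ hI' ?_).2
  · refine Filter.Eventually.of_forall fun s => ?_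
    exact ((hc.mul hG).mul (hφ.comp (hin s))).aestronglyMeasurable
  · refine hI.norm.mono' ((hc.mul hG).mul (hφ.comp (hin t))).aestronglyMeasurable
      (ae_of_all _ fun x => ?_)
    show ‖g x * G x * φ ⟪x, w + t • v⟫‖ ≤ ‖g x * G x‖
    rw [norm_mul]
    have h2 : ‖φ ⟪x, w + t • v⟫‖ ≤ 1 := hb _
    exact mul_le_of_le_one_right (norm_nonneg _) h2
  · refine Continuous.aestronglyMeasurable ?_
    have h2 : Continuous (fun x : V n => (⟪x, v⟫ : ℝ)) := by fun_prop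
    exact ((h2.mul hc).mul hG).mul (hφ'.comp (hin t))
  · refine ae_of_all _ fun x s _ => ?_
    show ‖⟪x, v⟫ * g x * G x * φ' ⟪x, w + s • v⟫‖ ≤ |⟪x, v⟫ * g x| * G x
    rw [norm_mul, norm_mul, Real.norm_eq_abs (G x), abs_of_pos (G_pos x)]
    have h2 : ‖φ' ⟪x, w + s • v⟫‖ ≤ 1 := hb' _
    exact mul_le_of_le_one_right (mul_nonneg (norm_nonneg _) (G_pos x).le) h2
  · refine ae_of_all _ fun x s _ => ?_
    show HasDerivAt (fun s : ℝ => g x * G x * φ ⟪x, w + s • v⟫)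
      (⟪x, v⟫ * g x * G x * φ' ⟪x, w + s • v⟫) s
    have h2 : HasDerivAt (fun s : ℝ => (⟪x, w + s • v⟫ : ℝ)) ⟪x, v⟫ s := by
      have h3 : (fun s : ℝ => (⟪x, w + s • v⟫ : ℝ)) = fun s : ℝ => ⟪x, w⟫ + s * ⟪x, v⟫ := by
        funext s
        rw [inner_add_right, inner_smul_right]
      rw [h3]
      have h4 := ((hasDerivAt_id s).mul_const (⟪x, v⟫ : ℝ)).const_add (⟪x, w⟫ : ℝ)
      rw [one_mul] at h4
      exact h4
    have h5 := ((h1 ⟪x, w + s • v⟫).comp s h2).const_mul (g x * G x)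
    have h6 : g x * G x * (φ' ⟪x, w + s • v⟫ * ⟪x, v⟫) =
        ⟪x, v⟫ * g x * G x * φ' ⟪x, w + s • v⟫ := by ring
    rw [← h6]
    exact h5

/-- row JDD -/
theorem jdd : JddStmt := by
  intro n f C m hc hb
  have hC : 0 ≤ C := by
    have h := (abs_nonneg _).trans (hb 0)
    simpa using h
  have hg : PG f := ⟨C, m, hC, hb⟩
  refine ⟨int_pg hc hg, fun v w => ?_⟩
  refine ⟨fun t => ∫ x, ⟪x, v⟫ * f x * G x * (-Real.sin ⟪x, w + t • v⟫), fun t => ?_, fun t => ?_⟩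
  · exact der hc hg v w Real.cos (fun y => -Real.sin y) Real.hasDerivAt_cos
      (Real.continuous_sin.neg) Real.abs_cos_le_one (fun y => by rw [abs_neg]; exact Real.abs_sin_le_one y) t
  · have h1 : Continuous (fun x : V n => ⟪x, v⟫ * f x) := by fun_prop
    have h := der h1 (pg_mul hg v) v w (fun y => -Real.sin y) (fun y => -Real.cos y)
      (fun y => (Real.hasDerivAt_sin y).neg) Real.continuous_cos.neg
      (fun y => by rw [abs_neg]; exact Real.abs_sin_le_one y)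
      (fun y => by rw [abs_neg]; exact Real.abs_cos_le_one y) t
    have h2 : (∫ x, ⟪x, v⟫ * (⟪x, v⟫ * f x) * G x * (-Real.cos ⟪x, w + t • v⟫)) =
        -∫ x, ⟪x, v⟫ ^ 2 * f x * G x * Real.cos ⟪x, w + t • v⟫ := by
      rw [← integral_neg]
      refine integral_congr_ae (ae_of_all _ fun x => ?_)
      show ⟪x, v⟫ * (⟪x, v⟫ * f x) * G x * (-Real.cos ⟪x, w + t • v⟫) =
        -(⟪x, v⟫ ^ 2 * f x * G x * Real.cos ⟪x, w + t • v⟫)
      ring
    rw [← h2]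
    exact h

end Pool.Agent.LPK.H21
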